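import Pool.Agent.W2helper26.PB.Stm

/-!
# Piece SIM: simulation of two oracle algorithms by the universal algorithm
-/

set_option autoImplicit false

namespace Pool.Agent.W2helper67.PB

open Pool.Agent.NPC Pool.Agent.H620R2.Gauge Pool.Agent.W2helper26.PB
open Pool.Agent.H583R2 (Code U)

/-- the changed next-action function -/
noncomputable def Dm (M : Alg) (p : Polynomial ℕ) (y : List Bool) : List Bool :=
  if (unpair (unpair y).1).1.length ≤ p.eval (unpair (unpair y).1).2.length then
    (if M.p.eval (unpair y).1.length ≤ (unpair y).2.length then [] else M.D y)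
  else []

lemma Dm_poly (M : Alg) (p : Polynomial ℕ) : PolyTime (Dm M p) := by
  have pD := Pool.Agent.H622R2.poly_of_polyTime M.poly
  have hv : Poly (fun y : List Bool => (unpair y).1) := Poly.fst poly_unpair
  have ha : Poly (fun y : List Bool => (unpair y).2) := Poly.snd poly_unpair
  have hw : Poly (fun y : List Bool => (unpair (unpair y).1).1) := Poly.fst (poly_unpair.comp hv)
  have hx : Poly (fun y : List Bool => (unpair (unpair y).1).2) := Poly.snd (poly_unpair.comp hv)
  have hc : Poly (fun y : List Bool =>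
      decide ((unpair (unpair y).1).1.length ≤ p.eval (unpair (unpair y).1).2.length)) :=
    Poly.decide_le (Poly.length hw) (UPoly.toPoly (UPoly.eval (UPoly.length hx) p))
  have hc2 : Poly (fun y : List Bool =>
      decide (M.p.eval (unpair y).1.length ≤ (unpair y).2.length)) :=
    Poly.decide_le (UPoly.toPoly (UPoly.eval (UPoly.length hv) M.p)) (Poly.length ha)
  exact Pool.Agent.H622R2.polyTime_of_poly_list
    (Poly.ite hc (Poly.ite hc2 (NPC.Poly.const _) pD) (NPC.Poly.const _))

lemma Dm_eq (M : Alg) (p : Polynomial ℕ) (w x a : List Bool) :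
    Dm M p (pairBits (pairBits w x) a) = if w.length ≤ p.eval x.length then
      (if M.p.eval (pairBits w x).length ≤ a.length then [] else M.D (pairBits (pairBits w x) a))
    else [] := by
  unfold Dm
  rw [unpair_pairBits]
  simp only [unpair_pairBits]

/-- `cd` is a code of `D` with the clock `P` -/
def IsCode (cd : Code) (P : Polynomial ℕ) (D : List Bool → List Bool) : Prop :=
  ∀ (x : List Bool) (t : ℕ), (U cd x t = none ∨ U cd x t = some (D x)) ∧
    (P.eval x.length ≤ t → U cd x t = some (D x))

lemma acc_iff (M : Alg) (p : Polynomial ℕ) (cd : Code) (P : Polynomial ℕ) (hU : IsCode cd P (Dm M p))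
    (A : Oracle) (w x : List Bool) (T : ℕ) (hw : w.length ≤ p.eval x.length)
    (h1 : ∀ a : List Bool, a.length ≤ M.p.eval (pairBits w x).length →
      P.eval (pairBits (pairBits w x) a).length ≤ T)
    (h2 : ∀ a : List Bool, a.length ≤ M.p.eval (pairBits w x).length →
      (M.D (pairBits (pairBits w x) a)).length ≤ T) :
    ∀ (k : ℕ) (a : List Bool) (n : ℕ), a.length + k = M.p.eval (pairBits w x).length → k + 1 ≤ n →
      (acc A cd T (pairBits w x) n a = true ↔ M.run A (pairBits w x) k a = some [true]) := by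
  intro k
  induction k with
  | zero =>
    intro a n ha hn
    obtain ⟨n, rfl⟩ : ∃ m, n = m + 1 := ⟨n - 1, by omega⟩
    have h3 := (hU (pairBits (pairBits w x) a) T).2 (h1 a (by omega))
    rw [Dm_eq, if_pos hw, if_pos (by omega)] at h3
    simp only [acc, Alg.run, h3]
    simp
  | succ k ih =>
    intro a n ha hn
    obtain ⟨n, rfl⟩ : ∃ m, n = m + 1 := ⟨n - 1, by omega⟩
    have h3 := (hU (pairBits (pairBits w x) a) T).2 (h1 a (by omega))
    rw [Dm_eq, if_pos hw, if_neg (by omega)] at h3
    have h4 := h2 a (by omega)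
    rcases hD : M.D (pairBits (pairBits w x) a) with _ | ⟨b, z⟩
    · rw [hD] at h3
      simp only [acc, Alg.run, h3, hD]
      simp
    · rw [hD] at h3 h4
      cases b with
      | true =>
        simp only [acc, Alg.run, h3, hD]
        simp
      | false =>
        simp only [acc, Alg.run, h3, hD]
        rw [List.length_cons] at h4
        rw [if_pos (by omega)]
        exact ih (a ++ [A z]) n (by rw [List.length_append]; simp only [List.length_cons, List.length_nil]; omega) (by omega)

lemma acc_no (M : Alg) (p : Polynomial ℕ) (cd : Code) (P : Polynomial ℕ) (hU : IsCode cd P (Dm M p))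
    (A : Oracle) (w x : List Bool) (T : ℕ) (hw : ¬ w.length ≤ p.eval x.length) (n : ℕ) (a : List Bool) :
    ¬ acc A cd T (pairBits w x) n a = true := by
  cases n with
  | zero => simp [acc]
  | succ n =>
    have h3 := (hU (pairBits (pairBits w x) a) T).1
    rw [Dm_eq, if_neg hw] at h3
    rcases h3 with h3 | h3
    · simp only [acc, h3]
      simp
    · simp only [acc, h3]
      simp

/-- one algorithm -/
lemma sim_one (hcode : P_code) (M : Alg) (p : Polynomial ℕ) : ∃ (cd : Code) (Q : Polynomial ℕ),
    ∀ (A : Oracle) (L T : ℕ) (x w : List Bool), x.length ≤ L → Q.eval L ≤ T →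
      p.eval x.length ≤ T ∧ (Pool.Agent.W2helper26.PB.Acc A cd T (pairBits w x) ↔
        w.length ≤ p.eval x.length ∧ M.out A (pairBits w x) = some [true]) := by
  obtain ⟨cd, P, hU⟩ := hcode (Dm M p) (Dm_poly M p)
  obtain ⟨b, hb⟩ := M.next_length
  obtain ⟨V, hV⟩ : ∃ V : Polynomial ℕ, V = 2 * p + 1 + Polynomial.X := ⟨_, rfl⟩
  have hVe : ∀ n, V.eval n = 2 * p.eval n + 1 + n := by
    intro n
    rw [hV]
    simp
  obtain ⟨Q, hQ⟩ : ∃ Q : Polynomial ℕ, Q = P.comp (2 * V + 1 + M.p.comp V) + b.comp V + (M.p.comp V + 1) + p := ⟨_, rfl⟩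
  have hQe : ∀ n, Q.eval n = P.eval (2 * V.eval n + 1 + M.p.eval (V.eval n)) + b.eval (V.eval n) +
      (M.p.eval (V.eval n) + 1) + p.eval n := by
    intro n
    rw [hQ]
    simp [Polynomial.eval_comp]
  refine ⟨cd, Q, fun A L T x w hx hT => ?_⟩
  have h0 := (eval_mono Q hx).trans hT
  rw [hQe] at h0
  refine ⟨by omega, ?_⟩
  unfold Pool.Agent.W2helper26.PB.Acc
  by_cases hw : w.length ≤ p.eval x.length
  · have hv : (pairBits w x).length ≤ V.eval x.length := by
      rw [length_pairBits, hVe]
      omega
    have hR : M.p.eval (pairBits w x).length ≤ M.p.eval (V.eval x.length) := eval_mono _ hv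
    have h1 : ∀ a : List Bool, a.length ≤ M.p.eval (pairBits w x).length →
        P.eval (pairBits (pairBits w x) a).length ≤ T := by
      intro a ha
      have h3 : P.eval (pairBits (pairBits w x) a).length ≤ P.eval (2 * V.eval x.length + 1 + M.p.eval (V.eval x.length)) := by
        apply eval_mono
        rw [length_pairBits]
        omega
      omega
    have h2 : ∀ a : List Bool, a.length ≤ M.p.eval (pairBits w x).length →
        (M.D (pairBits (pairBits w x) a)).length ≤ T := by
      intro a ha
      have h3 := hb (pairBits w x) a ha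
      have h4 : b.eval (pairBits w x).length ≤ b.eval (V.eval x.length) := eval_mono _ hv
      omega
    have h5 := acc_iff M p cd P hU A w x T hw h1 h2 (M.p.eval (pairBits w x).length) [] T (by simp) (by omega)
    rw [h5]
    unfold Alg.out
    exact ⟨fun h => ⟨hw, h⟩, fun h => h.2⟩
  · constructor
    · intro h
      exact absurd h (acc_no M p cd P hU A w x T hw T [])
    · intro h
      exact absurd h.1 hw

theorem p_sim : P_sim := by
  intro hcode hlev cod hcod kind M₁ M₂ p₁ p₂ c₀
  obtain ⟨cd₁, Q₁, h1⟩ := sim_one hcode M₁ p₁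
  obtain ⟨cd₂, Q₂, h2⟩ := sim_one hcode M₂ p₂
  obtain ⟨d₀, hd⟩ := hlev (Q₁ + Q₂)
  obtain ⟨c, hc⟩ := hcod (kind, cd₁, cd₂)
  refine ⟨(c, d₀), ?_, fun A m x w hx => ?_⟩
  · simp only [hc]
  have h3 := hd c₀ c d₀ m le_rfl
  rw [Polynomial.eval_add] at h3
  obtain ⟨g1, g2⟩ := h1 A (lev c₀ (c, d₀) m) (lev c₀ (c, d₀) (m + 1)) x w hx (by omega)
  obtain ⟨g3, g4⟩ := h2 A (lev c₀ (c, d₀) m) (lev c₀ (c, d₀) (m + 1)) x w hx (by omega)
  refine ⟨g1, g3, fun _ => ⟨?_, ?_⟩⟩
  · simp only [hc]
    exact g2
  · simp only [hc]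
    exact g4

end Pool.Agent.W2helper67.PB
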